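import Pool.Agent.Lib_helper72.Hyp.Defs
import Pool.Agent.Lib_helper72.Hyp.Nielsen
import Pool.Agent.Lib_helper72.Hyp.Boundary
import Pool.Agent.Lib_helper72.Hyp.Letters
import Pool.Agent.Lib_helper72.Hyp.Homeo
import Pool.Agent.Lib_helper72.Hyp.InfType

/-!
# Non-isometric Nielsen-convex hyperbolic surfaces with the same simple length spectrum

The surfaces are obtained from four copies of an infinite right-angled hyperbolic polygon with
sides `0, 1, 2, ...`, glued along all sides except the side `1`, which gives two boundary circles.
The even sides `2 k + 2` carry one of two letters; the letter of `k = 0` is `x`, and the letter of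
`k > 0` is the parity of the 2-adic valuation of `k`.  Every bounded part of the surface of the
letter `x` embeds locally isometrically (by a scaling of the half-plane) into the surface of the
letter `x'`, in infinitely many disjoint places, so all the multiplicities are `0` or infinite and
agree.  The length of the boundary circles distinguishes the two surfaces.
-/

open Set Pool.Agent.SimpleSpectrum Pool.Agent.Hyp72

namespace Pool.Agent.Results.MP_052aee_gt.SimpleSpectrumCounterexample

/-- The surface of the letter `x`. -/
noncomputable abbrev surf (x : Bool) : Type := (poly (tt x) (adm_tt x)).X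

lemma spectrum_eq (x x' : Bool) (ℓ : ℝ) :
    simpleLengthSpectrum (surf x) ℓ = simpleLengthSpectrum (surf x') ℓ := by
  have key : ∀ y y' : Bool, (∃ C : Set (surf y), IsSimpleClosedGeodesic ℓ C) →
      simpleLengthSpectrum (surf y') ℓ = ⊤ := by
    rintro y y' ⟨C, hC⟩
    exact Set.encard_eq_top_iff.mpr (Poly.infinite_of_match (exists_match y y') hC)
  by_cases h : ∃ y : Bool, ∃ C : Set (surf y), IsSimpleClosedGeodesic ℓ C
  · obtain ⟨y, hy⟩ := h
    rw [key y x hy, key y x' hy]
  · have hzero : ∀ y : Bool, simpleLengthSpectrum (surf y) ℓ = 0 := by
      intro y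
      unfold simpleLengthSpectrum
      rw [Set.encard_eq_zero]
      ext C
      simp only [mem_empty_iff_false, iff_false]
      intro hC
      exact h ⟨y, C, hC⟩
    rw [hzero, hzero]

/-- There are two homeomorphic, complete, Nielsen-convex hyperbolic surfaces with non-abelian,
infinitely generated fundamental group which have the same simple length spectrum but are not
isometric. -/
theorem result : ∃ (X X' : Type) (_ : MetricSpace X) (_ : MetricSpace X'),
    IsHyperbolicSurface X ∧ IsHyperbolicSurface X' ∧
    ProperSpace X ∧ ProperSpace X' ∧
    NielsenConvex X ∧ NielsenConvex X' ∧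
    (∀ x₀ : X, (∃ a b : FundamentalGroup X x₀, a * b ≠ b * a) ∧
      ¬ Group.FG (FundamentalGroup X x₀)) ∧
    Nonempty (X ≃ₜ X') ∧
    (∀ ℓ : ℝ, simpleLengthSpectrum X ℓ = simpleLengthSpectrum X' ℓ) ∧
    IsEmpty (X ≃ᵢ X') := by
  refine ⟨surf true, surf false, inferInstance, inferInstance, Poly.isHyperbolicSurface _,
    Poly.isHyperbolicSurface _, inferInstance, inferInstance, Poly.nielsenConvex _,
    Poly.nielsenConvex _, Poly.fundamentalGroup_all _, exists_homeo _ _, spectrum_eq true false,
    Poly.not_isometric ?_⟩
  show bil (0, -1, 0) (circ (cen (tt true) 0) (tt true 0)) ≠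
    bil (0, -1, 0) (circ (cen (tt false) 0) (tt false 0))
  rw [bil_axis_circ, bil_axis_circ]
  simp [tt]

end Pool.Agent.Results.MP_052aee_gt.SimpleSpectrumCounterexample
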